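import Pool.Agent.H88.MCR.Stmts

/-!
Row `IN0` of the board `mcr` (helper88): arcs that do not cross meet only in common end points.
-/

namespace Pool.MCR

private lemma in0_core (a b c d x : ℝ) (h1 : a < x) (h2 : x < b) (h3 : c < x) (h4 : x < d)
    (h : (x - a) * (b - x) = (x - c) * (d - x)) :
    (a = c ∧ b = d) ∨ (a < c ∧ b < d) ∨ (c < a ∧ d < b) := by
  have k1 : 0 < x - a := by linarith
  have k2 : 0 < b - x := by linarith
  have k3 : 0 < x - c := by linarith
  have k4 : 0 < d - x := by linarith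
  rcases lt_trichotomy a c with hac | hac | hac
  · right; left
    refine ⟨hac, ?_⟩
    by_contra hbd
    have hbd' : d ≤ b := not_lt.mp hbd
    have e1 : (x - c) * (d - x) < (x - a) * (d - x) :=
      mul_lt_mul_of_pos_right (by linarith) k4
    have e2 : (x - a) * (d - x) ≤ (x - a) * (b - x) :=
      mul_le_mul_of_nonneg_left (by linarith) k1.le
    linarith
  · left
    refine ⟨hac, ?_⟩
    subst hac
    have := mul_left_cancel₀ (ne_of_gt k1) h
    linarith
  · right; right
    refine ⟨hac, ?_⟩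
    by_contra hbd
    have hbd' : b ≤ d := not_lt.mp hbd
    have e1 : (x - a) * (b - x) < (x - c) * (b - x) :=
      mul_lt_mul_of_pos_right (by linarith) k2
    have e2 : (x - c) * (b - x) ≤ (x - c) * (d - x) :=
      mul_le_mul_of_nonneg_left (by linarith) k3.le
    linarith

private lemma in0_pos (a b x : ℝ) (h : 0 < (x - a) * (b - x)) :
    (a < x ∧ x < b) ∨ (b < x ∧ x < a) := by
  rcases pos_and_pos_or_neg_and_neg_of_mul_pos h with ⟨h1, h2⟩ | ⟨h1, h2⟩
  · left; constructor <;> linarith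
  · right; constructor <;> linarith

private lemma in0_zero (a b x : ℝ) (h : (x - a) * (b - x) = 0) : x = a ∨ x = b := by
  rcases mul_eq_zero.mp h with h | h
  · left; linarith
  · right; linarith

theorem in0_thm : IN0_S := by
  intro s s' a b c d _ _ hX h1 h2 p hp hq
  obtain ⟨hp1, hp2⟩ := hp
  obtain ⟨hq1, hq2⟩ := hq
  obtain ⟨x, y⟩ := p
  simp only at hp1 hp2 hq1 hq2 ⊢
  -- it suffices that the two heights vanish
  have key : (x - a) * (b - x) = 0 ∧ (x - c) * (d - x) = 0 := by
    by_cases hs : s = s'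
    · subst hs
      have hh : (x - a) * (b - x) = (x - c) * (d - x) := by
        have e : (if s = true then (1 : ℝ) else -1) * ((x - a) * (b - x)) =
            (if s = true then (1 : ℝ) else -1) * ((x - c) * (d - x)) := by
          rw [← hp2, ← hq2]
        have hne : (if s = true then (1 : ℝ) else -1) ≠ 0 := by
          split_ifs <;> norm_num
        exact mul_left_cancel₀ hne e
      rcases hp1.eq_or_lt with h0 | h0
      · exact ⟨h0.symm, by rw [← hh]; exact h0.symm⟩
      · exfalso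
        have h0' : 0 < (x - c) * (d - x) := by rw [← hh]; exact h0
        have hX' : ¬ Inter a b c d := fun h => hX ⟨rfl, h⟩
        have h1' : ¬ (a = c ∧ b = d) := fun h => h1 ⟨rfl, h⟩
        have h2' : ¬ (a = d ∧ b = c) := fun h => h2 ⟨rfl, h⟩
        rcases in0_pos a b x h0 with ⟨u1, u2⟩ | ⟨u1, u2⟩ <;>
          rcases in0_pos c d x h0' with ⟨v1, v2⟩ | ⟨v1, v2⟩
        · rcases in0_core a b c d x u1 u2 v1 v2 hh with h | ⟨w1, w2⟩ | ⟨w1, w2⟩
          · exact h1' h
          · exact hX' (Or.inl ⟨Or.inl ⟨w1, by linarith⟩, Or.inr ⟨by linarith, w2⟩⟩)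
          · exact hX' (Or.inr ⟨Or.inl ⟨by linarith, w2⟩, Or.inl ⟨w1, by linarith⟩⟩)
        · rcases in0_core a b d c x u1 u2 v1 v2 (by rw [hh]; ring) with
            ⟨w1, w2⟩ | ⟨w1, w2⟩ | ⟨w1, w2⟩
          · exact h2' ⟨w1, w2⟩
          · exact hX' (Or.inr ⟨Or.inl ⟨w1, by linarith⟩, Or.inr ⟨by linarith, w2⟩⟩)
          · exact hX' (Or.inl ⟨Or.inl ⟨by linarith, w2⟩, Or.inl ⟨w1, by linarith⟩⟩)
        · rcases in0_core b a c d x u1 u2 v1 v2 (by rw [← hh]; ring) with
            ⟨w1, w2⟩ | ⟨w1, w2⟩ | ⟨w1, w2⟩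
          · exact h2' ⟨w2, w1⟩
          · exact hX' (Or.inl ⟨Or.inr ⟨w1, by linarith⟩, Or.inr ⟨w2, by linarith⟩⟩)
          · exact hX' (Or.inr ⟨Or.inr ⟨by linarith, w2⟩, Or.inl ⟨by linarith, w1⟩⟩)
        · rcases in0_core b a d c x u1 u2 v1 v2 (by
              have : (x - b) * (a - x) = (x - a) * (b - x) := by ring
              rw [this, hh]; ring) with
            ⟨w1, w2⟩ | ⟨w1, w2⟩ | ⟨w1, w2⟩
          · exact h1' ⟨w2, w1⟩
          · exact hX' (Or.inr ⟨Or.inr ⟨w1, by linarith⟩, Or.inr ⟨w2, by linarith⟩⟩)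
          · exact hX' (Or.inl ⟨Or.inr ⟨by linarith, w2⟩, Or.inl ⟨by linarith, w1⟩⟩)
    · -- opposite sides
      cases s <;> cases s'
      · exact absurd rfl hs
      · simp only [Bool.false_eq_true, if_false, if_true] at hp2 hq2
        constructor <;> linarith
      · simp only [Bool.false_eq_true, if_false, if_true] at hp2 hq2
        constructor <;> linarith
      · exact absurd rfl hs
  refine ⟨?_, in0_zero a b x key.1, in0_zero c d x key.2⟩
  rw [hp2, key.1, mul_zero]

end Pool.MCR
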